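import Mathlib

/-!
Riemannian metrics `A(z)^2 dz^2 + B(z)^2 dy^2` on the plane: length, distance, geodesics, Gaussian
curvature, conjugate points and completeness.
-/

set_option autoImplicit false
open Filter Topology
open scoped ContDiff

namespace Pool.Agent.H.MP_92a93b_gt.Plane

/-- The length of the curve `c`, restricted to `[0, 1]`, for the Riemannian metric
`A(z)^2 dz^2 + B(z)^2 dy^2` of the plane with coordinates `(z, y)`. -/
noncomputable def curveLength (A B : ℝ → ℝ) (c : ℝ → ℝ × ℝ) : ℝ :=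
  ∫ t in (0 : ℝ)..1, √((A (c t).1 * (deriv c t).1) ^ 2 + (B (c t).1 * (deriv c t).2) ^ 2)

/-- The Riemannian distance of `A(z)^2 dz^2 + B(z)^2 dy^2`: the infimum of the lengths of the
continuously differentiable curves from `p` to `q`. -/
noncomputable def rdist (A B : ℝ → ℝ) (p q : ℝ × ℝ) : ℝ :=
  sInf {l | ∃ c : ℝ → ℝ × ℝ, ContDiff ℝ 1 c ∧ c 0 = p ∧ c 1 = q ∧ curveLength A B c = l}

/-- Unit-speed geodesics: curves that realize the distance locally. -/
def Geodesic (A B : ℝ → ℝ) (γ : ℝ → ℝ × ℝ) : Prop :=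
  ∀ t : ℝ, ∃ ε > 0, ∀ s u : ℝ, |s - t| < ε → |u - t| < ε → rdist A B (γ s) (γ u) = |s - u|

/-- The Gaussian curvature of `A(z)^2 dz^2 + B(z)^2 dy^2`: minus `(B' / A)' / (A B)`. -/
noncomputable def curvature (A B : ℝ → ℝ) (z : ℝ) : ℝ :=
  -(deriv (fun x => deriv B x / A x) z / (A z * B z))

/-- There are no conjugate points along `γ`: a solution `j` of the Jacobi equation
`j'' + K j = 0` along `γ` with two zeros vanishes identically. -/
def NoConjugatePoints (A B : ℝ → ℝ) (γ : ℝ → ℝ × ℝ) : Prop :=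
  ∀ j j' : ℝ → ℝ, (∀ t, HasDerivAt j (j' t) t) →
    (∀ t, HasDerivAt j' (-(curvature A B (γ t).1 * j t)) t) →
    ∀ s u : ℝ, s ≠ u → j s = 0 → j u = 0 → ∀ t, j t = 0

/-- Every Cauchy sequence converges. -/
def CompletePlane (A B : ℝ → ℝ) : Prop :=
  ∀ p : ℕ → ℝ × ℝ, (∀ ε > 0, ∃ N, ∀ m ≥ N, ∀ n ≥ N, rdist A B (p m) (p n) < ε) →
    ∃ q, Tendsto (fun n => rdist A B (p n) q) atTop (𝓝 0)

end Pool.Agent.H.MP_92a93b_gt.Plane
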