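import Pool.Agent.H.MP_92a93b_gt.Asym
import Pool.Agent.H.MP_92a93b_gt.helper19.PlaneDefs

/-!
The plane `X` with the metric `rho(z)^2 dz^2 + exp(-2z) dy^2` in elementary terms: its distance is
the infimum of the lengths of curves, its geodesics carry a positive Jacobi field, and the lines
`alp` and `bet` are disjoint and asymptotic at both ends.
-/

set_option autoImplicit false
open Filter Topology Set MeasureTheory Function
open scoped ContDiff

namespace Pool.Agent.H.MP_92a93b_gt.Plane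

open Pool.Agent.H.MP_92a93b_gt

/-- the second coefficient -/
noncomputable def eB (z : ℝ) : ℝ := Real.exp (-z)

/-- points of the plane -/
noncomputable def P (p : ℝ × ℝ) : X := pt p.1 p.2

lemma P_inj : Injective P := by
  intro p q h
  have h0 := congrArg zc h
  have h1 := congrArg yc h
  unfold P at h0 h1
  rw [zc_pt, zc_pt] at h0
  rw [yc_pt, yc_pt] at h1
  exact Prod.ext h0 h1

lemma P_coord (x : X) : P (zc x, yc x) = x := pt_eta x

lemma length_nonneg (c : ℝ → ℝ × ℝ) : 0 ≤ curveLength rho eB c := by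
  unfold curveLength
  apply intervalIntegral.integral_nonneg zero_le_one
  intro t _
  exact Real.sqrt_nonneg _

lemma rdist_le {p q : ℝ × ℝ} (c : ℝ → ℝ × ℝ) (hc : ContDiff ℝ 1 c) (h0 : c 0 = p)
    (h1 : c 1 = q) : rdist rho eB p q ≤ curveLength rho eB c := by
  apply csInf_le
  · refine ⟨0, ?_⟩
    rintro _ ⟨c, -, -, -, rfl⟩
    exact length_nonneg c
  · exact ⟨c, hc, h0, h1, rfl⟩

lemma speed_cont (c : ℝ → ℝ × ℝ) (hc : ContDiff ℝ 1 c) :
    Continuous fun t => √((rho (c t).1 * (deriv c t).1) ^ 2 + (eB (c t).1 * (deriv c t).2) ^ 2) := by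
  have h2 : Continuous c := hc.continuous
  have h3 : Continuous (deriv c) := hc.continuous_deriv le_rfl
  have h4 : Continuous (fun t => rho (c t).1) := rho_cont.comp (continuous_fst.comp h2)
  have h5 : Continuous (fun t => eB (c t).1) :=
    (Real.continuous_exp.comp continuous_neg).comp (continuous_fst.comp h2)
  have h6 : Continuous (fun t => (deriv c t).1) := continuous_fst.comp h3
  have h7 : Continuous (fun t => (deriv c t).2) := continuous_snd.comp h3
  exact Real.continuous_sqrt.comp (((h4.mul h6).pow 2).add ((h5.mul h7).pow 2))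

lemma fst_deriv {c : ℝ → ℝ × ℝ} {c' : ℝ × ℝ} {t : ℝ} (h : HasDerivAt c c' t) :
    HasDerivAt (fun t => (c t).1) c'.1 t :=
  (hasFDerivAt_fst (𝕜 := ℝ) (p := c t)).comp_hasDerivAt t h

lemma snd_deriv {c : ℝ → ℝ × ℝ} {c' : ℝ × ℝ} {t : ℝ} (h : HasDerivAt c c' t) :
    HasDerivAt (fun t => (c t).2) c'.2 t :=
  (hasFDerivAt_snd (𝕜 := ℝ) (p := c t)).comp_hasDerivAt t h

lemma dist_le_length (c : ℝ → ℝ × ℝ) (hc : ContDiff ℝ 1 c) :
    dist (P (c 0)) (P (c 1)) ≤ curveLength rho eB c := by
  have hd : ∀ t, HasDerivAt c (deriv c t) t :=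
    fun t => (hc.differentiable one_ne_zero t).hasDerivAt
  have h3 : Continuous (deriv c) := hc.continuous_deriv le_rfl
  have hs := speed_cont c hc
  have key := curve_le (fun t => (c t).1) (fun t => (c t).2) (fun t => (deriv c t).1)
    (fun t => (deriv c t).2)
    (fun t => ∫ s in (0 : ℝ)..t,
      √((rho (c s).1 * (deriv c s).1) ^ 2 + (eB (c s).1 * (deriv c s).2) ^ 2))
    (fun t => fst_deriv (hd t)) (fun t => snd_deriv (hd t))
    (continuous_fst.comp h3) (continuous_snd.comp h3)
    (fun t => (hs.integral_hasStrictDerivAt 0 t).hasDerivAt) (a := 0) (b := 1) zero_le_one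
  simp only [intervalIntegral.integral_same, sub_zero] at key
  exact key

lemma rdist_curve (f g f' g' L : ℝ → ℝ) (hf : ∀ t, HasDerivAt f (f' t) t)
    (hg : ∀ t, HasDerivAt g (g' t) t) (cf : Continuous f') (cg : Continuous g')
    (hL : ∀ t, HasDerivAt L (√((rho (f t) * f' t) ^ 2 + (eB (f t) * g' t) ^ 2)) t) (a b : ℝ) :
    rdist rho eB (f a, g a) (f b, g b) ≤ |L b - L a| := by
  set w : ℝ → ℝ := fun t => a + t * (b - a) with hw
  have hwd : ∀ t, HasDerivAt w (b - a) t := by
    intro t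
    have := ((hasDerivAt_id t).mul_const (b - a)).const_add a
    exact this.congr_deriv (one_mul _)
  have hwc : Continuous w := by rw [hw]; fun_prop
  set c : ℝ → ℝ × ℝ := fun t => (f (w t), g (w t)) with hc
  have hcd : ∀ t, HasDerivAt c (f' (w t) * (b - a), g' (w t) * (b - a)) t := by
    intro t
    have h1 : HasDerivAt (fun t => f (w t)) (f' (w t) * (b - a)) t :=
      HasDerivAt.comp (h₂ := f) (h := w) t (hf _) (hwd t)
    have h2 : HasDerivAt (fun t => g (w t)) (g' (w t) * (b - a)) t :=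
      HasDerivAt.comp (h₂ := g) (h := w) t (hg _) (hwd t)
    exact h1.prodMk h2
  have hder : deriv c = fun t => (f' (w t) * (b - a), g' (w t) * (b - a)) := by
    ext1 t; exact (hcd t).deriv
  have hcc : ContDiff ℝ 1 c := by
    rw [contDiff_one_iff_deriv]
    refine ⟨fun t => (hcd t).differentiableAt, ?_⟩
    rw [hder]
    exact ((cf.comp hwc).mul continuous_const).prodMk ((cg.comp hwc).mul continuous_const)
  have hle := rdist_le (p := (f a, g a)) (q := (f b, g b)) c hcc (by simp [hc, hw])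
    (by simp [hc, hw])
  refine hle.trans ?_
  have hsp : ∀ t, √((rho (c t).1 * (deriv c t).1) ^ 2 + (eB (c t).1 * (deriv c t).2) ^ 2) =
      |b - a| * √((rho (f (w t)) * f' (w t)) ^ 2 + (eB (f (w t)) * g' (w t)) ^ 2) := by
    intro t
    rw [hder]
    simp only [hc]
    rw [← Real.sqrt_sq_eq_abs, ← Real.sqrt_mul (sq_nonneg _)]
    congr 1
    ring
  have hLd : ∀ t, HasDerivAt (fun t => L (w t))
      (√((rho (f (w t)) * f' (w t)) ^ 2 + (eB (f (w t)) * g' (w t)) ^ 2) * (b - a)) t := by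
    intro t
    exact HasDerivAt.comp (h₂ := L) (h := w) t (hL _) (hwd t)
  have hint := (speed_cont c hcc).intervalIntegrable (μ := volume) 0 1
  have e0 : w 0 = a := by simp [hw]
  have e1 : w 1 = b := by simp [hw]
  unfold curveLength
  rcases le_total a b with h | h
  · have : ∫ t in (0 : ℝ)..1,
        √((rho (c t).1 * (deriv c t).1) ^ 2 + (eB (c t).1 * (deriv c t).2) ^ 2) =
        L (w 1) - L (w 0) := by
      apply intervalIntegral.integral_eq_sub_of_hasDerivAt (f := fun t => L (w t)) _ hint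
      intro t _
      rw [hsp, abs_of_nonneg (sub_nonneg.2 h), mul_comm]
      exact hLd t
    rw [this, e0, e1]
    exact le_abs_self _
  · have : ∫ t in (0 : ℝ)..1,
        √((rho (c t).1 * (deriv c t).1) ^ 2 + (eB (c t).1 * (deriv c t).2) ^ 2) =
        -L (w 1) - -L (w 0) := by
      apply intervalIntegral.integral_eq_sub_of_hasDerivAt (f := fun t => -L (w t)) _ hint
      intro t _
      rw [hsp, abs_of_nonpos (sub_nonpos.2 h)]
      refine (hLd t).neg.congr_deriv ?_
      ring
    rw [this, e0, e1]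
    have := neg_abs_le (L b - L a)
    linarith

lemma rdist_fam (ξ a τ₁ τ₂ : ℝ) :
    rdist rho eB (a - lc τ₁, ξ + PP a τ₁) (a - lc τ₂, ξ + PP a τ₂) ≤ |SS a τ₂ - SS a τ₁| := by
  apply rdist_curve (fun τ => a - lc τ) (fun τ => ξ + PP a τ) (fun τ => - th τ)
    (fun τ => PP2 a τ) (SS a) _ _ th_cont.neg
  · have : Continuous (fun τ => uncurry PP2 (a, τ)) :=
      PP2_cont.comp (continuous_const.prodMk continuous_id)
    exact this
  · intro t
    refine (SS_deriv2 a t).congr_deriv ?_
    have hr := rho_pos (a - lc t)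
    have hc := Real.cosh_pos t
    have e1 : eB (a - lc t) * PP2 a t = rho (a - lc t) / Real.cosh t := by
      unfold PP2 eB
      rw [neg_sub, Real.exp_sub, exp_lc]
      have := Real.exp_pos a
      field_simp
    rw [e1]
    have e2 : (rho (a - lc t) * - th t) ^ 2 + (rho (a - lc t) / Real.cosh t) ^ 2 =
        rho (a - lc t) ^ 2 := by
      rw [mul_pow, neg_sq, th_sq, div_pow]
      ring
    rw [e2, Real.sqrt_sq hr.le]
  · intro t
    exact (lc_deriv t).const_sub a
  · intro t
    exact (PP_deriv2 a t).const_add ξ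

lemma rdist_vert (y z₁ z₂ : ℝ) : rdist rho eB (z₁, y) (z₂, y) ≤ |XX z₂ - XX z₁| := by
  apply rdist_curve (fun t => t) (fun _ => y) (fun _ => 1) (fun _ => 0) XX
    (fun t => hasDerivAt_id t) (fun t => hasDerivAt_const t y) continuous_const continuous_const
  intro t
  refine (XX_deriv t).congr_deriv ?_
  have := rho_pos t
  simp only [mul_one, mul_zero]
  rw [zero_pow two_ne_zero, add_zero, Real.sqrt_sq this.le]

lemma coord_of {p : ℝ × ℝ} {z y : ℝ} (h : P p = pt z y) : p = (z, y) := P_inj h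

/-- the distance defined by curves is the distance of `X` -/
lemma rdist_eq (p q : ℝ × ℝ) : rdist rho eB p q = dist (P p) (P q) := by
  apply le_antisymm
  · rcases lt_trichotomy p.2 q.2 with h | h | h
    · obtain ⟨ξ, a, τ₁, τ₂, hτ, e1, e2⟩ := connect (P p) (P q) (by
        unfold P; rw [yc_pt, yc_pt]; exact h)
      have hd := fam_dist ξ a hτ.le
      rw [← e1, ← e2] at hd
      have h0 : 0 ≤ SS a τ₂ - SS a τ₁ := by rw [← hd]; exact dist_nonneg
      rw [hd, coord_of e1, coord_of e2]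
      exact (rdist_fam ξ a τ₁ τ₂).trans (abs_of_nonneg h0).le
    · have h1 := XX_lip (P p) (P q)
      unfold P at h1
      rw [zc_pt, zc_pt] at h1
      have h2 := rdist_vert p.2 p.1 q.1
      have e : ((q.1, p.2) : ℝ × ℝ) = q := by rw [h]
      rw [e] at h2
      exact h2.trans h1
    · obtain ⟨ξ, a, τ₁, τ₂, hτ, e1, e2⟩ := connect (P q) (P p) (by
        unfold P; rw [yc_pt, yc_pt]; exact h)
      have hd := fam_dist ξ a hτ.le
      rw [← e1, ← e2, dist_comm] at hd
      have h0 : 0 ≤ SS a τ₂ - SS a τ₁ := by rw [← hd]; exact dist_nonneg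
      rw [hd, coord_of e1, coord_of e2]
      refine (rdist_fam ξ a τ₂ τ₁).trans ?_
      rw [abs_sub_comm]
      exact (abs_of_nonneg h0).le
  · unfold rdist
    apply le_csInf
    · refine ⟨_, fun t => (1 - t) • p + t • q, ?_, ?_, ?_, rfl⟩
      · exact ((contDiff_const.sub contDiff_id).smul contDiff_const).add
          (contDiff_id.smul contDiff_const)
      · simp
      · simp
    · rintro _ ⟨c, hc, h0, h1, rfl⟩
      rw [← h0, ← h1]
      exact dist_le_length c hc

lemma geodesic_line {γ : ℝ → ℝ × ℝ} (h : Geodesic rho eB γ) :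
    ∃ l, IsLine l ∧ ∀ t, P (γ t) = l t := by
  obtain ⟨l, hl, hl2⟩ := local_line (fun t => P (γ t)) (by
    intro t
    obtain ⟨ε, hε, h1⟩ := h t
    refine ⟨ε, hε, fun s u hs hu => ?_⟩
    rw [← rdist_eq]
    exact h1 s u hs hu)
  exact ⟨l, hl, fun t => congrFun hl2 t⟩

lemma curv (z : ℝ) : curvature rho eB z = -((rho z + rho' z) / rho z ^ 3) := by
  have hB : deriv eB = fun x => -Real.exp (-x) := by
    ext1 x
    have h : HasDerivAt eB (-Real.exp (-x)) x := by
      have := (hasDerivAt_neg x).exp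
      refine this.congr_deriv ?_
      ring
    exact h.deriv
  unfold curvature
  rw [hB]
  have hr := (rho_pos z).ne'
  have he := (Real.exp_pos (-z)).ne'
  have h1 : HasDerivAt (fun x => -Real.exp (-x)) (Real.exp (-z)) z := by
    have := (hasDerivAt_neg z).exp.neg
    refine this.congr_deriv ?_
    ring
  have h2 := h1.div (rho_deriv z) hr
  have h3 : deriv (fun x => -Real.exp (-x) / rho x) z =
    (Real.exp (-z) * rho z - -Real.exp (-z) * rho' z) / rho z ^ 2 := h2.deriv
  rw [h3]
  unfold eB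
  field_simp
  ring

lemma jacobi_of_pos {z : ℝ → ℝ} {J J' : ℝ → ℝ} (hJ : ∀ t, 0 < J t)
    (h1 : ∀ t, HasDerivAt J (J' t) t)
    (h2 : ∀ t, HasDerivAt J' (-(curvature rho eB (z t) * J t)) t) (j j' : ℝ → ℝ)
    (g1 : ∀ t, HasDerivAt j (j' t) t)
    (g2 : ∀ t, HasDerivAt j' (-(curvature rho eB (z t) * j t)) t)
    (s u : ℝ) (hsu : s ≠ u) (hs : j s = 0) (hu : j u = 0) : ∀ t, j t = 0 := by
  have hW : ∀ t, HasDerivAt (fun t => j' t * J t - j t * J' t) 0 t := by
    intro t
    have := ((g2 t).mul (h1 t)).sub ((g1 t).mul (h2 t))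
    refine this.congr_deriv ?_
    ring
  have hWc : ∀ t t', j' t * J t - j t * J' t = j' t' * J t' - j t' * J' t' :=
    is_const_of_deriv_eq_zero (f := fun t => j' t * J t - j t * J' t)
      (fun t => (hW t).differentiableAt) (fun t => (hW t).deriv)
  have hq : ∀ t, HasDerivAt (fun t => j t / J t) ((j' t * J t - j t * J' t) / J t ^ 2) t := by
    intro t
    exact (g1 t).div (h1 t) (hJ t).ne'
  have hr : ∃ t₀, j' t₀ * J t₀ - j t₀ * J' t₀ = 0 := by
    have key : ∀ a b : ℝ, a < b → j a = 0 → j b = 0 →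
        ∃ t₀, j' t₀ * J t₀ - j t₀ * J' t₀ = 0 := by
      intro a b hab ha hb
      have hc : ContinuousOn (fun t => j t / J t) (Icc a b) :=
        fun t _ => (hq t).continuousAt.continuousWithinAt
      obtain ⟨t₀, -, h0⟩ := exists_hasDerivAt_eq_zero hab hc (by simp [ha, hb])
        (fun t _ => hq t)
      refine ⟨t₀, ?_⟩
      have := pow_pos (hJ t₀) 2
      rcases div_eq_zero_iff.1 h0 with h | h
      · exact h
      · exact absurd h this.ne'
    rcases lt_or_gt_of_ne hsu with h | h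
    · exact key s u h hs hu
    · exact key u s h hu hs
  obtain ⟨t₀, h0⟩ := hr
  have hq0 : ∀ t, HasDerivAt (fun t => j t / J t) 0 t := by
    intro t
    refine (hq t).congr_deriv ?_
    rw [hWc t t₀, h0, zero_div]
  intro t
  have hc := is_const_of_deriv_eq_zero (f := fun t => j t / J t)
    (fun t => (hq0 t).differentiableAt) (fun t => (hq0 t).deriv) t s
  simp only [hs, zero_div] at hc
  rcases div_eq_zero_iff.1 hc with h | h
  · exact h
  · exact absurd h (hJ t).ne'

/-- the positive Jacobi field along a family curve -/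
noncomputable def JJ (a τ : ℝ) : ℝ := rho (a - lc τ) * Real.cosh τ + Real.sinh τ * bB1 a τ

lemma JJ_pos (a τ : ℝ) : 0 < JJ a τ := by
  have h := F2_pos (a - lc τ) τ
  unfold F2 PP1 PP2 at h
  rw [sub_add_cancel] at h
  have hc := Real.cosh_pos τ
  have he := Real.exp_pos a
  have e : JJ a τ = Real.cosh τ * (Real.exp a)⁻¹ *
      (Real.exp a * (bB1 a τ + rho (a - lc τ) * th τ) * th τ +
        Real.exp a * (rho (a - lc τ) / Real.cosh τ ^ 2)) := by
    have h1 : rho (a - lc τ) / Real.cosh τ ^ 2 = rho (a - lc τ) - rho (a - lc τ) * th τ ^ 2 := by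
      rw [th_sq]; ring
    rw [h1]
    have h2 : Real.exp a * (bB1 a τ + rho (a - lc τ) * th τ) * th τ +
        Real.exp a * (rho (a - lc τ) - rho (a - lc τ) * th τ ^ 2) =
        Real.exp a * (bB1 a τ * th τ + rho (a - lc τ)) := by ring
    rw [h2]
    unfold JJ th
    field_simp
    ring
  rw [e]
  positivity

lemma bB1_deriv (a τ : ℝ) : HasDerivAt (bB1 a) (rho' (a - lc τ)) τ := by
  have := ((cont_a' rho'_cont a).integral_hasStrictDerivAt 0 τ).hasDerivAt.const_add
    (eta (Real.exp a))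
  exact this

noncomputable def JJ1 (a τ : ℝ) : ℝ := Real.sinh τ + Real.cosh τ * bB1 a τ / rho (a - lc τ)

lemma JJ_deriv (a τ : ℝ) : HasDerivAt (JJ a) (rho (a - lc τ) * JJ1 a τ) τ := by
  have h := ((rho_x_deriv a τ).mul (Real.hasDerivAt_cosh τ)).add
    ((Real.hasDerivAt_sinh τ).mul (bB1_deriv a τ))
  refine h.congr_deriv ?_
  unfold JJ1 th
  have := (Real.cosh_pos τ).ne'
  have := (rho_pos (a - lc τ)).ne'
  field_simp
  ring

lemma JJ1_deriv (a τ : ℝ) : HasDerivAt (JJ1 a)
    ((rho (a - lc τ) + rho' (a - lc τ)) / rho (a - lc τ) ^ 2 * JJ a τ) τ := by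
  have h := (Real.hasDerivAt_sinh τ).add (((Real.hasDerivAt_cosh τ).mul (bB1_deriv a τ)).div
    (rho_x_deriv a τ) (rho_pos (a - lc τ)).ne')
  refine h.congr_deriv ?_
  unfold JJ th
  have := (Real.cosh_pos τ).ne'
  have := (rho_pos (a - lc τ)).ne'
  simp only [Pi.mul_apply]
  field_simp
  ring

lemma noconj_line {l : ℝ → X} (hl : IsLine l) {γ : ℝ → ℝ × ℝ} (hγ : ∀ t, P (γ t) = l t) :
    NoConjugatePoints rho eB γ := by
  have hz : ∀ t, (γ t).1 = zc (l t) := by
    intro t
    rw [← hγ]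
    unfold P
    rw [zc_pt]
  intro j j' g1 g2
  rcases hl with ⟨ξ, a, k, σ, hσ, hl⟩ | ⟨y, k, σ, hσ, hl⟩
  · have hz' : ∀ t, (γ t).1 = a - lc (tau a (σ * t + k)) := by
      intro t
      rw [hz, hl]
      unfold Gl fam
      rw [zc_pt]
    have hT : ∀ t, HasDerivAt (fun t => tau a (σ * t + k))
        ((rho (a - lc (tau a (σ * t + k))))⁻¹ * σ) t := fun t =>
      HasDerivAt.comp (h₂ := tau a) (h := fun t => σ * t + k) t (tau_deriv a _) (lin_deriv σ k t)
    have hσ2 : σ * σ = 1 := by rcases hσ with h | h <;> rw [h] <;> norm_num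
    refine jacobi_of_pos (z := fun t => (γ t).1) (J := fun t => JJ a (tau a (σ * t + k)))
      (J' := fun t => σ * JJ1 a (tau a (σ * t + k))) (fun t => JJ_pos a _) ?_ ?_ j j' g1 g2
    · intro t
      have h := HasDerivAt.comp (h₂ := JJ a) (h := fun t => tau a (σ * t + k)) t
        (JJ_deriv a _) (hT t)
      refine h.congr_deriv ?_
      have := (rho_pos (a - lc (tau a (σ * t + k)))).ne'
      field_simp
    · intro t
      have h := (HasDerivAt.comp (h₂ := JJ1 a) (h := fun t => tau a (σ * t + k)) t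
        (JJ1_deriv a _) (hT t)).const_mul σ
      refine h.congr_deriv ?_
      rw [hz', curv]
      have := (rho_pos (a - lc (tau a (σ * t + k)))).ne'
      field_simp
      linear_combination ((rho (a - lc (tau a (σ * t + k))) + rho' (a - lc (tau a (σ * t + k)))) *
        JJ a (tau a (σ * t + k))) * hσ2
  · have hz' : ∀ t, (γ t).1 = XXi (σ * t + k) := by
      intro t
      rw [hz, hl]
      unfold Vt
      rw [zc_pt]
    have hXi : ∀ t, HasDerivAt XXi (rho (XXi t))⁻¹ t := by
      intro t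
      apply HasDerivAt.of_local_left_inverse (f := XX)
      · exact XXi.continuous.continuousAt
      · exact XX_deriv _
      · exact (rho_pos _).ne'
      · exact Eventually.of_forall XX_XXi
    have hT : ∀ t, HasDerivAt (fun t => XXi (σ * t + k)) ((rho (XXi (σ * t + k)))⁻¹ * σ) t :=
      fun t => HasDerivAt.comp (h₂ := XXi) (h := fun t => σ * t + k) t (hXi _) (lin_deriv σ k t)
    have hσ2 : σ * σ = 1 := by rcases hσ with h | h <;> rw [h] <;> norm_num
    have b1 : ∀ z, HasDerivAt (fun z => Real.exp (-z)) (-Real.exp (-z)) z := by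
      intro z
      refine (hasDerivAt_neg z).exp.congr_deriv ?_
      ring
    have b2 : ∀ z, HasDerivAt (fun z => -(Real.exp (-z) / rho z))
        (Real.exp (-z) * (rho z + rho' z) / rho z ^ 2) z := by
      intro z
      refine ((b1 z).div (rho_deriv z) (rho_pos z).ne').neg.congr_deriv ?_
      ring
    refine jacobi_of_pos (z := fun t => (γ t).1)
      (J := fun t => Real.exp (-(XXi (σ * t + k))))
      (J' := fun t => σ * (-(Real.exp (-(XXi (σ * t + k))) / rho (XXi (σ * t + k)))))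
      (fun t => Real.exp_pos _) ?_ ?_ j j' g1 g2
    · intro t
      have h := HasDerivAt.comp (h₂ := fun z => Real.exp (-z))
        (h := fun t => XXi (σ * t + k)) t (b1 _) (hT t)
      refine h.congr_deriv ?_
      have := (rho_pos (XXi (σ * t + k))).ne'
      field_simp
    · intro t
      have h := (HasDerivAt.comp (h₂ := fun z => -(Real.exp (-z) / rho z))
        (h := fun t => XXi (σ * t + k)) t (b2 _) (hT t)).const_mul σ
      refine h.congr_deriv ?_
      rw [hz', curv]
      have := (rho_pos (XXi (σ * t + k))).ne'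
      field_simp
      linear_combination (rho (XXi (σ * t + k)) + rho' (XXi (σ * t + k))) * hσ2

lemma rho_one {z : ℝ} (hz : z ≤ 0) : rho z = 1 := by
  unfold rho
  have hpi := Real.pi_pos
  have h : ∫ θ in (0 : ℝ)..(Real.pi / 2), eta (Real.exp z * Real.sin θ) =
      ∫ θ in (0 : ℝ)..(Real.pi / 2), (1 : ℝ) := by
    apply intervalIntegral.integral_congr
    intro θ hθ
    rw [uIcc_of_le (by positivity)] at hθ
    apply eta_of_le
    have h0 : 0 ≤ Real.sin θ := Real.sin_nonneg_of_nonneg_of_le_pi hθ.1 (by linarith [hθ.2])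
    have h1 : Real.sin θ ≤ 1 := Real.sin_le_one θ
    have h2 : Real.exp z ≤ 1 := Real.exp_le_one_iff.2 hz
    have h3 := Real.exp_pos z
    nlinarith
  rw [h, intervalIntegral.integral_const]
  simp only [sub_zero, smul_eq_mul, mul_one]
  field_simp

lemma disjoint_lines (s t : ℝ) : alp s ≠ bet t := by
  intro h
  unfold alp bet Gl fam at h
  have h0 := congrArg zc h
  have h1 := congrArg yc h
  rw [zc_pt, zc_pt] at h0
  rw [yc_pt, yc_pt, zero_add, zero_add] at h1
  have c1 := cp_fam a₁ (tau a₁ (1 * s + 0))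
  have c2 := cp_fam a₂ (tau a₂ (1 * t + kk))
  rw [h0, h1, c2] at c1
  have := Real.exp_injective c1
  exact a_ne (by linarith)

lemma dist_bound_shift (s t : ℝ) (h₁ : 0 < tau a₁ s) (h₂ : 0 < tau a₂ (t + kk)) :
    dist (alp s) (bet t) ≤
      QQ (DD a₁ (-(tau a₁ s)) - DD a₂ (-(tau a₂ (t + kk))) - s + t + kk)
      (-(tau a₁ s)) (-(tau a₂ (t + kk))) := by
  set τ₁ := tau a₁ s with hτ₁
  set τ₂ := tau a₂ (t + kk) with hτ₂
  have e1 : alp s = pt (a₁ - lc τ₁) (0 + PP a₁ τ₁) := by
    unfold alp Gl fam; rw [one_mul, add_zero]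
  have e2 : bet t = pt (a₂ - lc τ₂) (0 + PP a₂ τ₂) := by
    unfold bet Gl fam; rw [one_mul]
  have hΔ : DD a₁ (-τ₁) - DD a₂ (-τ₂) - s + t + kk =
      XX (a₁ - lc (-τ₁)) - XX (a₂ - lc (-τ₂)) := by
    unfold DD
    rw [SS_neg, SS_neg, hτ₁, hτ₂, SS_tau, SS_tau]
    ring
  rw [hΔ]
  refine le_trans ?_ (QQ_bound a₁ a₂ (by linarith) (by linarith))
  rw [e1, e2]
  refine (two_leg _ _ _ _).trans ?_
  rw [lc_neg, lc_neg]
  have f1 := F_pos (a₁ - lc τ₁) (-τ₁)
  have f2 := F_pos (a₂ - lc τ₂) (-τ₂)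
  have g1 : PP a₁ τ₁ = 2 * EE 2 - F (a₁ - lc τ₁) (-τ₁) := by
    rw [PP_eq_F, F_reflect, sub_add_cancel, EE_a₁]
  have g2 : PP a₂ τ₂ = 2 * EE 2 - F (a₂ - lc τ₂) (-τ₂) := by
    rw [PP_eq_F, F_reflect, sub_add_cancel, EE_a₂]
  have hy : |0 + PP a₁ τ₁ - (0 + PP a₂ τ₂)| ≤
      F (a₁ - lc τ₁) (-τ₁) + F (a₂ - lc τ₂) (-τ₂) := by
    rw [g1, g2, abs_le]
    constructor <;> linarith
  gcongr

lemma shift_top : Tendsto (fun t => dist (alp (t + 2 * kk)) (bet t)) atTop (𝓝 0) := by
  have t1 : Tendsto (fun t => -(tau a₁ (t + 2 * kk))) atTop atBot :=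
    tendsto_neg_atTop_atBot.comp
      ((tau_top a₁).comp (tendsto_atTop_add_const_right _ _ tendsto_id))
  have t2 : Tendsto (fun t => -(tau a₂ (t + kk))) atTop atBot :=
    tendsto_neg_atTop_atBot.comp
      ((tau_top a₂).comp (tendsto_atTop_add_const_right _ _ tendsto_id))
  have hD : Tendsto (fun t => DD a₁ (-(tau a₁ (t + 2 * kk))) - DD a₂ (-(tau a₂ (t + kk))) - kk)
      atTop (𝓝 (ka a₁ - ka a₂ - kk)) :=
    (((DD_tendsto a₁).comp t1).sub ((DD_tendsto a₂).comp t2)).sub_const kk
  have h := QQ_tendsto hD t1 t2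
  have e : |ka a₁ - ka a₂ - kk| = 0 := by unfold kk; simp
  rw [e] at h
  apply squeeze_zero' (Eventually.of_forall fun t => dist_nonneg) _ h
  filter_upwards [t1.eventually (eventually_lt_atBot 0), t2.eventually (eventually_lt_atBot 0)]
    with t h1 h2
  refine (dist_bound_shift (t + 2 * kk) t (by linarith) (by linarith)).trans (le_of_eq ?_)
  congr 1
  ring

lemma bounded_all : ∃ C, ∀ t, dist (alp t) (bet t) ≤ C := by
  obtain ⟨C, hC⟩ := dist_top
  obtain ⟨t₁, h1⟩ := eventually_atTop.1 hC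
  obtain ⟨t₀, h0⟩ := eventually_atBot.1 (dist_bot.eventually (gt_mem_nhds one_pos))
  refine ⟨max (max C 1) (2 * |t₁ - t₀| + 1), fun t => ?_⟩
  rcases le_total t₁ t with h | h
  · exact (h1 t h).trans ((le_max_left _ _).trans (le_max_left _ _))
  rcases le_total t t₀ with h' | h'
  · exact (h0 t h').le.trans ((le_max_right _ _).trans (le_max_left _ _))
  · refine le_trans ?_ (le_max_right _ _)
    have d1 : dist (alp t) (alp t₀) = |t - t₀| := alp_line.dist_eq _ _
    have d2 : dist (bet t₀) (bet t) = |t₀ - t| := bet_line.dist_eq _ _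
    have d3 := (h0 t₀ le_rfl).le
    have d4 := dist_triangle4 (alp t) (alp t₀) (bet t₀) (bet t)
    have d5 : |t - t₀| ≤ |t₁ - t₀| := by
      rw [abs_of_nonneg (by linarith), abs_of_nonneg (by linarith)]
      linarith
    rw [d1, d2, abs_sub_comm t₀ t] at d4
    linarith

end Pool.Agent.H.MP_92a93b_gt.Plane
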